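import Mathlib
import Pool.Agent.R728.TH.Noeth

/-!
# Infinite thin spaces

A topological space `S` is thin if any two homeomorphic subsets of `S` are mapped onto each other
by a homeomorphism of `S` onto itself. No separation axiom is assumed.

We prove that an infinite thin space `S` has the following properties.

* For all points, `x ∈ closure {y}` implies `y ∈ closure {x}`, and `closure {x}` is finite;
  so the `T₀` quotient of `S` is an infinite `T₁` space.
* Any two nonempty open subsets of `S` meet; so `S` is connected, and it is neither Hausdorff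
  nor regular.
* `S` is not a Noetherian space.
-/

set_option autoImplicit false

open Set Topology TopologicalSpace
open Pool.Agent.R728.TH

namespace Pool.Agent.Results.MP_52f683_gt.InfiniteThinIrreducible

universe u

theorem result :
    ∀ (S : Type u) [TopologicalSpace S] [Infinite S],
      (∀ A B : Set S, Nonempty (A ≃ₜ B) → ∃ h : S ≃ₜ S, h '' A = B) →
      (∀ x y : S, x ∈ closure ({y} : Set S) → y ∈ closure ({x} : Set S)) ∧
      (∀ x : S, (closure ({x} : Set S)).Finite) ∧
      (∀ U V : Set S, IsOpen U → IsOpen V → U.Nonempty → V.Nonempty → (U ∩ V).Nonempty) ∧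
      ConnectedSpace S ∧ ¬ T2Space S ∧ ¬ RegularSpace S ∧ ¬ NoetherianSpace S := by
  intro S _ _ hS
  obtain ⟨h1, h2, h3, h4⟩ := thin_main (S := S) hS
  have hR1 : ¬ R1Space S := by
    intro hR
    by_cases hall : ∀ x y : S, Inseparable x y
    · obtain ⟨x⟩ := (inferInstance : Nonempty S)
      refine infinite_univ (α := S) ((h2 x).subset fun y _ => ?_)
      exact (hall x y).specializes.mem_closure
    · push Not at hall
      obtain ⟨x, y, hxy⟩ := hall
      have hd := disjoint_nhds_nhds_iff_not_inseparable.2 hxy
      obtain ⟨U, ⟨hxU, hU⟩, V, ⟨hyV, hV⟩, hUV⟩ :=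
        ((nhds_basis_opens x).disjoint_iff (nhds_basis_opens y)).1 hd
      exact (h3 U V hU hV ⟨x, hxU⟩ ⟨y, hyV⟩).ne_empty hUV.inter_eq
  have hirr : IrreducibleSpace S :=
    { isPreirreducible_univ := by
        intro U V hU hV hUn hVn
        rw [univ_inter] at hUn hVn ⊢
        exact h3 U V hU hV hUn hVn
      toNonempty := inferInstance }
  refine ⟨h1, h2, h3, inferInstance, fun h => hR1 inferInstance, fun h => hR1 inferInstance, h4⟩

end Pool.Agent.Results.MP_52f683_gt.InfiniteThinIrreducible
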