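import Pool.Agent.R728.RC.Each
import Pool.Agent.Results.MP_175f55_nt.ExceptionalMultiples

/-!
# All digits in the multiples of `√2` by random numbers and by all numbers in random classes

Let `𝓜` be a set of positive integers with `∑ q ^ (-s) < ∞` and let `X q` be random elements of any
sets `Y q`, each value of which has probability at most `K q ^ (-θ)`; no independence is assumed.
Let `φ q` be any maps from `ℕ` to `Y q`. Let `k ≥ 1`, `κ = log (10 ^ k - 1) / log (10 ^ k)`, `ρ ≥ 0`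
and `ρ κ ≤ θ - s`. Almost surely, for all but finitely many `q` in `𝓜`, for ALL `m ≤ q ^ ρ` with
`φ q m = X q` every word of `k` decimal digits stands infinitely often in the decimal expansion of
`x + m √2`.

Examples: `Y q = ℕ`, `φ q` the identity, `ρ = 1`: random multipliers `m = X q ≤ q` of min-entropy at
least `θ log q`, `θ > κ`, `q` running through the powers of a number (`κ = log 9 / log 10` for
single digits); the reduction modulo `q` (`θ = 1`): for the powers `q` of a number all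
`m ≡ X q` modulo `q`, `m ≤ q ^ ρ`, `ρ < 1 / κ`, where `1 / κ > 1`.
-/

set_option autoImplicit false

namespace Pool.Agent.Results.MP_175f55_nt.RandomMultipliers

open MeasureTheory

/-- the `j`-th digit of `y` in base `10` (`j ≥ 1`) -/
noncomputable def digit (y : ℝ) (j : ℕ) : ℤ := ⌊y * (10 : ℝ) ^ j⌋ % 10

/-- the word `w 0 … w (k - 1)` stands in the decimal expansion of `y` right after the `i`-th digit -/
def Stands (k : ℕ) (w : ℕ → ℕ) (y : ℝ) (i : ℕ) : Prop :=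
  ∀ s < k, digit y (i + s + 1) = (w s : ℤ)

/-- every word of `k` decimal digits stands infinitely often in the decimal expansion of `y` -/
def AllWords (k : ℕ) (y : ℝ) : Prop :=
  ∀ w : ℕ → ℕ, (∀ s < k, w s < 10) → {i : ℕ | Stands k w y i}.Infinite

lemma stands_eq (k : ℕ) (w : ℕ → ℕ) (y : ℝ) (i : ℕ) :
    Stands k w y i ↔ ExceptionalMultiples.Stands 10 k w y i := by
  unfold Stands ExceptionalMultiples.Stands digit ExceptionalMultiples.digit
  push_cast
  rfl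

/-- the exceptional multipliers up to `H` -/
lemma card_exc (k : ℕ) (hk : 1 ≤ k) (x H : ℝ) (hH : 1 ≤ H) :
    {m : ℕ | (m : ℝ) ≤ H ∧ ¬ AllWords k (x + m * √2)}.Finite ∧
    (({m : ℕ | (m : ℝ) ≤ H ∧ ¬ AllWords k (x + m * √2)}.ncard : ℕ) : ℝ) ≤
      (11 * 10 ^ k * (10 ^ k - 1)) * H ^ (Real.log (10 ^ k - 1) / Real.log (10 ^ k)) := by
  have hfin : {m : ℕ | (m : ℝ) ≤ H ∧ ¬ AllWords k (x + m * √2)}.Finite :=
    (Set.finite_Iic ⌊H⌋₊).subset (fun m hm => Nat.le_floor hm.1)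
  refine ⟨hfin, ?_⟩
  have hH0 : (0 : ℝ) < H := by linarith
  have hb : (10 : ℝ) ≤ 10 ^ k := by
    calc (10 : ℝ) = 10 ^ 1 := by norm_num
      _ ≤ 10 ^ k := pow_le_pow_right₀ (by norm_num) hk
  have hlb : 0 < Real.log ((10 : ℝ) ^ k) := Real.log_pos (by linarith)
  have hb9 : (1 : ℝ) ≤ 10 ^ k - 1 := by linarith
  have hlogH : 0 ≤ Real.log H := Real.log_nonneg hH
  set t : ℝ := Real.log H / Real.log ((10 : ℝ) ^ k) with ht
  have ht0 : 0 ≤ t := by positivity
  set l : ℕ := ⌊t⌋₊ + 1 with hl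
  have hl1 : t < l := by
    rw [hl]
    push_cast
    exact Nat.lt_floor_add_one t
  have hl2 : (l : ℝ) ≤ t + 1 := by
    rw [hl]
    push_cast
    linarith [Nat.floor_le ht0]
  have hHl : H < ((10 ^ (k * l) : ℕ) : ℝ) := by
    have h1 : Real.log H < l * Real.log ((10 : ℝ) ^ k) := by
      rw [ht, div_lt_iff₀ hlb] at hl1
      exact hl1
    have h2 : ((10 ^ (k * l) : ℕ) : ℝ) = Real.exp (l * Real.log ((10 : ℝ) ^ k)) := by
      rw [Real.exp_nat_mul, Real.exp_log (by positivity)]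
      push_cast
      rw [pow_mul]
    rw [h2, ← Real.log_lt_iff_lt_exp hH0]
    exact h1
  have hsub : {m : ℕ | (m : ℝ) ≤ H ∧ ¬ AllWords k (x + m * √2)} ⊆
      {m : ℕ | m < 10 ^ (k * l) ∧ ∃ w : ℕ → ℕ, (∀ s < k, w s < 10) ∧
        {i : ℕ | ExceptionalMultiples.Stands 10 k w (x + m * Real.sqrt 2) i}.Finite} := by
    rintro m ⟨h1, h2⟩
    refine ⟨by exact_mod_cast lt_of_le_of_lt h1 hHl, ?_⟩
    unfold AllWords at h2
    push Not at h2
    obtain ⟨w, h3, h4⟩ := h2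
    refine ⟨w, h3, ?_⟩
    have h5 : {i : ℕ | Stands k w (x + m * √2) i}.Finite := h4
    refine h5.subset fun i hi => ?_
    exact (stands_eq k w _ i).2 hi
  have h1 : {m : ℕ | (m : ℝ) ≤ H ∧ ¬ AllWords k (x + m * √2)}.ncard ≤
      ExceptionalMultiples.excTwo k x (10 ^ (k * l)) :=
    Set.ncard_le_ncard hsub ((Set.finite_Iio (10 ^ (k * l))).subset fun m hm => hm.1)
  have h2 := h1.trans ((ExceptionalMultiples.result.2.2 x l).2 k)
  have hpow : ((10 : ℝ) ^ k - 1) ^ l ≤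
      (10 ^ k - 1) * H ^ (Real.log (10 ^ k - 1) / Real.log (10 ^ k)) := by
    have e1 : ((10 : ℝ) ^ k - 1) ^ l ≤ ((10 : ℝ) ^ k - 1) ^ (t + 1) := by
      rw [← Real.rpow_natCast]
      exact Real.rpow_le_rpow_of_exponent_le hb9 hl2
    refine e1.trans (le_of_eq ?_)
    rw [Real.rpow_add (by linarith), Real.rpow_one, mul_comm]
    congr 1
    rw [Real.rpow_def_of_pos (by linarith), Real.rpow_def_of_pos hH0, ht]
    congr 1
    ring
  have hcast : ((10 ^ k - 1 : ℕ) : ℝ) = (10 : ℝ) ^ k - 1 := by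
    rw [Nat.cast_sub (Nat.one_le_pow _ _ (by norm_num))]
    push_cast
    ring
  calc (({m : ℕ | (m : ℝ) ≤ H ∧ ¬ AllWords k (x + m * √2)}.ncard : ℕ) : ℝ)
      ≤ ((11 * 10 ^ k * (10 ^ k - 1) ^ l : ℕ) : ℝ) := by exact_mod_cast h2
    _ = 11 * 10 ^ k * ((10 : ℝ) ^ k - 1) ^ l := by
        rw [← hcast]
        push_cast
        ring
    _ ≤ 11 * 10 ^ k * ((10 ^ k - 1) * H ^ (Real.log (10 ^ k - 1) / Real.log (10 ^ k))) := by
        gcongr
    _ = _ := by ring

/-- **Theorem.** Let `k ≥ 1`, `κ = log (10 ^ k - 1) / log (10 ^ k)` and `x` real. Let `𝓜` be a set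
of positive integers with a convergent sum of the `q ^ (-s)`, let `X q` be random elements of
arbitrary sets `Y q`, each value of which has probability at most `K q ^ (-θ)` (no independence is
assumed), and let `φ q` be any maps from `ℕ` to `Y q`; let `ρ ≥ 0` and `ρ κ ≤ θ - s`. Almost
surely, for all but finitely many `q` in `𝓜`, for ALL natural numbers `m ≤ q ^ ρ` with
`φ q m = X q`, every word of `k` decimal digits stands infinitely often in the decimal expansion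
of `x + m √2`. -/
theorem result (k : ℕ) (hk : 1 ≤ k) (x : ℝ) (𝓜 : Set ℕ) (s θ K ρ : ℝ) (Ω : Type)
    [MeasurableSpace Ω] (P : Measure Ω) (Y : ℕ → Type) (X : ∀ q : ℕ, Ω → Y q)
    (φ : ∀ q : ℕ, ℕ → Y q) (h0 : ∀ q ∈ 𝓜, 0 < q)
    (hsum : Summable fun q : 𝓜 => ((q : ℕ) : ℝ) ^ (-s))
    (hX : ∀ q ∈ 𝓜, ∀ y : Y q, P {ω | X q ω = y} ≤ ENNReal.ofReal (K * (q : ℝ) ^ (-θ)))
    (hρ : 0 ≤ ρ) (h : ρ * (Real.log (10 ^ k - 1) / Real.log (10 ^ k)) ≤ θ - s) :
    ∀ᵐ ω ∂P, ∃ q₀ : ℕ, ∀ q ∈ 𝓜, q₀ ≤ q → ∀ m : ℕ, (m : ℝ) ≤ (q : ℝ) ^ ρ → φ q m = X q ω →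
      AllWords k (x + m * √2) := by
  have hmain := Pool.Agent.R728.RC.eventually_each (𝓜 := 𝓜) (s := s) (θ := θ) (A := K)
    (D := 11 * 10 ^ k * (10 ^ k - 1)) (X := X) (φ := φ) (P := P)
    (F := fun q => {m : ℕ | (m : ℝ) ≤ (q : ℝ) ^ ρ ∧ ¬ AllWords k (x + m * √2)})
    h0 hsum hX (by
      intro q hq
      have hq1 : (1 : ℝ) ≤ (q : ℝ) := by exact_mod_cast h0 q hq
      obtain ⟨h1, h2⟩ := card_exc k hk x ((q : ℝ) ^ ρ) (Real.one_le_rpow hq1 hρ)
      refine ⟨h1, h2.trans ?_⟩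
      have h3 : (1 : ℝ) ≤ 10 ^ k := one_le_pow₀ (by norm_num)
      have h4 : (0 : ℝ) ≤ 10 ^ k - 1 := by linarith
      apply mul_le_mul_of_nonneg_left _ (by positivity)
      rw [← Real.rpow_mul (by linarith)]
      exact Real.rpow_le_rpow_of_exponent_le hq1 h)
  filter_upwards [hmain] with ω hω
  obtain ⟨q₀, hq₀⟩ := hω
  refine ⟨q₀, fun q hq hqq m h1 h2 => ?_⟩
  by_contra hcon
  exact hq₀ q hq hqq m ⟨h1, hcon⟩ h2

end Pool.Agent.Results.MP_175f55_nt.RandomMultipliers
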