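import Mathlib
import Pool.Agent.R728.SG.Small

/-!
# Symmetric sets, additive subgroups of the reals and abstract rectangles

Let `𝓑` be the `σ`-algebra on `ℝ` generated by all additive subgroups of `ℝ`.

* All symmetric sets belong to `𝓑` if and only if every subset of the plane belongs to the
  `σ`-algebra generated by the abstract rectangles `A × B` (`A`, `B` arbitrary sets of reals).
* Every symmetric set of cardinality at most `ℵ₁` belongs to `𝓑`.
-/

set_option autoImplicit false

open Set MeasureTheory
open Pool.Agent.R728.SG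

namespace Pool.Agent.Results.MP_fbee13_lc.RectangleCriterion

lemma rect_eq_generateFrom :
    rect ℝ ℝ = MeasurableSpace.generateFrom {R : Set (ℝ × ℝ) | ∃ A B : Set ℝ, A ×ˢ B = R} := by
  apply le_antisymm
  · refine sup_le ?_ ?_
    · rintro _ ⟨A, _, rfl⟩
      refine MeasurableSpace.measurableSet_generateFrom ⟨A, univ, ?_⟩
      ext p; simp
    · rintro _ ⟨A, _, rfl⟩
      refine MeasurableSpace.measurableSet_generateFrom ⟨univ, A, ?_⟩
      ext p; simp
  · refine MeasurableSpace.generateFrom_le ?_
    rintro _ ⟨A, B, rfl⟩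
    exact rect_prod A B

/-- (1) Every set `Z` of reals closed under negation belongs to the `σ`-algebra generated by the
additive subgroups of `ℝ` if and only if every set `E` in the plane belongs to the `σ`-algebra
generated by the rectangles `A × B`, where `A` and `B` are arbitrary sets of reals.
(2) Every set of reals closed under negation, of cardinality at most `ℵ₁`, belongs to the
`σ`-algebra generated by the additive subgroups of `ℝ`. -/
theorem result :
    ((∀ Z : Set ℝ, (∀ z ∈ Z, -z ∈ Z) →
        @MeasurableSet ℝ
          (MeasurableSpace.generateFrom {S : Set ℝ | ∃ G : AddSubgroup ℝ, (G : Set ℝ) = S}) Z) ↔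
      ∀ E : Set (ℝ × ℝ),
        @MeasurableSet (ℝ × ℝ)
          (MeasurableSpace.generateFrom
            {R : Set (ℝ × ℝ) | ∃ A B : Set ℝ, A ×ˢ B = R}) E) ∧
    ∀ Z : Set ℝ, (∀ z ∈ Z, -z ∈ Z) → Cardinal.mk Z ≤ Cardinal.aleph 1 →
        @MeasurableSet ℝ
          (MeasurableSpace.generateFrom {S : Set ℝ | ∃ G : AddSubgroup ℝ, (G : Set ℝ) = S}) Z := by
  refine ⟨⟨?_, ?_⟩, ?_⟩
  · intro h E
    rw [← rect_eq_generateFrom]
    exact rect_of_symm h E
  · intro h
    refine fun Z hZ => symm_of_rect ?_ Z hZ
    rw [rect_eq_generateFrom]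
    exact h
  · intro Z hZ hc
    exact symm_small Z hc hZ

end Pool.Agent.Results.MP_fbee13_lc.RectangleCriterion
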